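import Mathlib

set_option autoImplicit false
set_option linter.unusedSectionVars false

/-!
A unital Banach algebra `B` with an element which is not close to any invertible element, and the
algebras `ℂ × B` with the norms `|λ| + (n + 1) ‖b - λ‖`.
-/

namespace Pool.Agent.X189.SR

open scoped ENNReal

noncomputable section

/-- bounded sequences -/
abbrev E : Type := BoundedContinuousFunction ℕ ℂ

/-- bounded operators on the bounded sequences -/
abbrev B0 : Type := E →L[ℂ] E

/-- the backward shift as a map -/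
def bshFun (f : E) : E :=
  BoundedContinuousFunction.ofNormedAddCommGroupDiscrete (fun n => f (n + 1)) ‖f‖
    fun n => f.norm_coe_le_norm (n + 1)

/-- the forward shift as a map -/
def fshFun (f : E) : E :=
  BoundedContinuousFunction.ofNormedAddCommGroupDiscrete
    (fun n => if n = 0 then 0 else f (n - 1)) ‖f‖
    fun n => by
      by_cases h : n = 0
      · simp [h]
      · simp only [h, if_false]
        exact f.norm_coe_le_norm (n - 1)

/-- the backward shift -/
def bsh : B0 :=
  LinearMap.mkContinuous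
    { toFun := bshFun
      map_add' := fun f g => by
        ext n
        rfl
      map_smul' := fun c f => by
        ext n
        rfl } 1 fun f => by
    rw [one_mul]
    refine (BoundedContinuousFunction.norm_le (norm_nonneg f)).2 fun n => ?_
    exact f.norm_coe_le_norm (n + 1)

/-- the forward shift -/
def fsh : B0 :=
  LinearMap.mkContinuous
    { toFun := fshFun
      map_add' := fun f g => by
        ext n
        show (if n = 0 then (0 : ℂ) else f (n - 1) + g (n - 1)) =
          (if n = 0 then (0 : ℂ) else f (n - 1)) + (if n = 0 then (0 : ℂ) else g (n - 1))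
        split_ifs <;> simp
      map_smul' := fun c f => by
        ext n
        show (if n = 0 then (0 : ℂ) else c * f (n - 1)) =
          c * (if n = 0 then (0 : ℂ) else f (n - 1))
        split_ifs <;> simp } 1 fun f => by
    rw [one_mul]
    refine (BoundedContinuousFunction.norm_le (norm_nonneg f)).2 fun n => ?_
    show ‖(if n = 0 then (0 : ℂ) else f (n - 1))‖ ≤ ‖f‖
    split_ifs
    · simp
    · exact f.norm_coe_le_norm (n - 1)

lemma bsh_fsh : bsh * fsh = 1 := by
  ext f n
  show (if n + 1 = 0 then (0 : ℂ) else f (n + 1 - 1)) = f n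
  simp

lemma norm_bsh_le : ‖bsh‖ ≤ 1 := LinearMap.mkContinuous_norm_le _ zero_le_one _

lemma fsh_bsh_ne : fsh * bsh ≠ 1 := by
  intro h
  have h1 := congrArg (fun T : B0 => (T (BoundedContinuousFunction.const ℕ (1 : ℂ))) 0) h
  have h2 : (0 : ℂ) = 1 := h1
  exact zero_ne_one h2

/-- the forward shift has distance at least one from the invertible operators -/
lemma fsh_far (g : B0) (hg : IsUnit g) : 1 ≤ ‖fsh - g‖ := by
  by_contra hlt
  push Not at hlt
  have h1 : ‖(1 : B0) - bsh * g‖ < 1 := by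
    have : (1 : B0) - bsh * g = bsh * (fsh - g) := by
      rw [mul_sub, bsh_fsh]
    rw [this]
    calc ‖bsh * (fsh - g)‖ ≤ ‖bsh‖ * ‖fsh - g‖ := norm_mul_le _ _
      _ ≤ 1 * ‖fsh - g‖ := by gcongr; exact norm_bsh_le
      _ < 1 := by rw [one_mul]; exact hlt
  have h2 : IsUnit (bsh * g) := by
    have h3 := (Units.oneSub (1 - bsh * g) h1).isUnit
    rw [Units.val_oneSub, sub_sub_cancel] at h3
    exact h3
  have h4 : IsUnit bsh := by
    obtain ⟨u, rfl⟩ := hg
    have := h2.mul (u⁻¹).isUnit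
    rwa [mul_assoc, Units.mul_inv, mul_one] at this
  obtain ⟨v, hv⟩ := h4
  apply fsh_bsh_ne
  have h5 : fsh = ((v⁻¹ : B0ˣ) : B0) := by
    have := congrArg (fun T => ((v⁻¹ : B0ˣ) : B0) * T) bsh_fsh
    simp only [← hv, mul_one, ← mul_assoc, Units.inv_mul, one_mul] at this
    exact this
  rw [h5, ← hv, Units.inv_mul]

/-- the algebra `ℂ × B`, to be given the norm `|λ| + (n + 1) ‖b - λ‖` -/
def An (B : Type) (_ : ℕ) : Type := ℂ × B

variable {B : Type} [NormedRing B] [NormedAlgebra ℂ B]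

instance (n : ℕ) : Ring (An B n) := inferInstanceAs (Ring (ℂ × B))
instance instAlg (n : ℕ) : Algebra ℂ (An B n) := inferInstanceAs (Algebra ℂ (ℂ × B))

/-- first coordinate -/
def An.l {n : ℕ} (x : An B n) : ℂ := Prod.fst x
/-- second coordinate -/
def An.b {n : ℕ} (x : An B n) : B := Prod.snd x

/-- constructor -/
def mkA (n : ℕ) (l : ℂ) (b : B) : An B n := (l, b)

@[ext] lemma An.ext {n : ℕ} {x y : An B n} (h1 : x.l = y.l) (h2 : x.b = y.b) : x = y :=
  Prod.ext h1 h2

variable {n : ℕ}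

@[simp] lemma l_mkA (l : ℂ) (b : B) : (mkA n l b).l = l := rfl
@[simp] lemma b_mkA (l : ℂ) (b : B) : (mkA n l b).b = b := rfl
@[simp] lemma l_add (x y : An B n) : (x + y).l = x.l + y.l := rfl
@[simp] lemma b_add (x y : An B n) : (x + y).b = x.b + y.b := rfl
@[simp] lemma l_sub (x y : An B n) : (x - y).l = x.l - y.l := rfl
@[simp] lemma b_sub (x y : An B n) : (x - y).b = x.b - y.b := rfl
@[simp] lemma l_mul (x y : An B n) : (x * y).l = x.l * y.l := rfl
@[simp] lemma b_mul (x y : An B n) : (x * y).b = x.b * y.b := rfl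
@[simp] lemma l_zero : (0 : An B n).l = 0 := rfl
@[simp] lemma b_zero : (0 : An B n).b = 0 := rfl
@[simp] lemma l_one : (1 : An B n).l = 1 := rfl
@[simp] lemma b_one : (1 : An B n).b = 1 := rfl
@[simp] lemma l_smul (c : ℂ) (x : An B n) : (c • x).l = c * x.l := rfl
@[simp] lemma b_smul (c : ℂ) (x : An B n) : (c • x).b = c • x.b := rfl

variable (B) in
/-- the additive isomorphism inducing the norm -/
def fm (n : ℕ) : An B n ≃+ WithLp 1 (ℂ × B) where
  toFun x := WithLp.toLp 1 (x.l, ((n : ℂ) + 1) • (x.b - x.l • (1 : B)))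
  invFun y := mkA n (WithLp.ofLp y).1
    (((n : ℂ) + 1)⁻¹ • (WithLp.ofLp y).2 + (WithLp.ofLp y).1 • (1 : B))
  left_inv x := by
    have hn : (n : ℂ) + 1 ≠ 0 := by exact_mod_cast Nat.succ_ne_zero n
    apply An.ext
    · rfl
    · simp [smul_smul, hn]
  right_inv y := by
    have hn : (n : ℂ) + 1 ≠ 0 := by exact_mod_cast Nat.succ_ne_zero n
    apply (WithLp.equiv 1 (ℂ × B)).injective
    apply Prod.ext
    · rfl
    · simp [smul_smul, hn]
  map_add' x y := by
    apply (WithLp.equiv 1 (ℂ × B)).injective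
    apply Prod.ext
    · rfl
    · show ((n : ℂ) + 1) • (x.b + y.b - (x.l + y.l) • (1 : B)) =
        ((n : ℂ) + 1) • (x.b - x.l • (1 : B)) + ((n : ℂ) + 1) • (y.b - y.l • (1 : B))
      rw [← smul_add]
      congr 1
      rw [add_smul]
      abel

instance instNACG (n : ℕ) : NormedAddCommGroup (An B n) :=
  NormedAddCommGroup.induced (An B n) (WithLp 1 (ℂ × B)) (fm B n) (fm B n).injective

lemma norm_def (x : An B n) : ‖x‖ = ‖x.l‖ + ((n : ℝ) + 1) * ‖x.b - x.l • (1 : B)‖ := by
  show ‖fm B n x‖ = _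
  rw [WithLp.prod_norm_eq_of_L1]
  show ‖x.l‖ + ‖((n : ℂ) + 1) • (x.b - x.l • (1 : B))‖ = _
  rw [norm_smul]
  congr 2
  have : ((n : ℂ) + 1) = (((n + 1 : ℕ) : ℝ) : ℂ) := by push_cast; rfl
  rw [this, Complex.norm_real, Real.norm_of_nonneg (by positivity)]
  push_cast
  rfl

instance instNR (n : ℕ) : NormedRing (An B n) :=
  { instNACG n, (inferInstance : Ring (An B n)) with
    dist_eq := dist_eq_norm_neg_add
    norm_mul_le := by
      intro x y
      show ‖x * y‖ ≤ ‖x‖ * ‖y‖
      rw [norm_def, norm_def, norm_def, l_mul, b_mul]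
      set r : B := x.b - x.l • (1 : B) with hr
      set s : B := y.b - y.l • (1 : B) with hs
      have hx : x.b = r + x.l • (1 : B) := by rw [hr]; abel
      have hy : y.b = s + y.l • (1 : B) := by rw [hs]; abel
      have e : x.b * y.b - (x.l * y.l) • (1 : B) = r * s + y.l • r + x.l • s := by
        rw [hx, hy]
        simp only [add_mul, mul_add, smul_mul_assoc, one_mul, mul_smul_comm, mul_one]
        rw [smul_add, smul_smul, mul_comm y.l x.l]
        abel
      rw [e]
      have h1 : ‖r * s + y.l • r + x.l • s‖ ≤ ‖r‖ * ‖s‖ + ‖y.l‖ * ‖r‖ + ‖x.l‖ * ‖s‖ := by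
        refine (norm_add_le _ _).trans (add_le_add ((norm_add_le _ _).trans (add_le_add ?_ ?_)) ?_)
        · exact norm_mul_le _ _
        · exact (norm_smul _ _).le
        · exact (norm_smul _ _).le
      have hn : (0 : ℝ) ≤ (n : ℝ) + 1 := by positivity
      have hn1 : (1 : ℝ) ≤ (n : ℝ) + 1 := by
        have : (0 : ℝ) ≤ (n : ℝ) := Nat.cast_nonneg n
        linarith
      have h2 : ((n : ℝ) + 1) * ‖r * s + y.l • r + x.l • s‖ ≤
          ((n : ℝ) + 1) * (‖r‖ * ‖s‖ + ‖y.l‖ * ‖r‖ + ‖x.l‖ * ‖s‖) :=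
        mul_le_mul_of_nonneg_left h1 hn
      have h3 : ((n : ℝ) + 1) * (‖r‖ * ‖s‖) ≤ (((n : ℝ) + 1) * ‖r‖) * (((n : ℝ) + 1) * ‖s‖) := by
        have h4 : 0 ≤ ((n : ℝ) + 1) * (‖r‖ * ‖s‖) := by positivity
        nlinarith
      rw [norm_mul]
      nlinarith }

instance instNA (n : ℕ) : NormedAlgebra ℂ (An B n) :=
  { instAlg n with
    norm_smul_le := by
      intro c x
      show ‖c • x‖ ≤ ‖c‖ * ‖x‖
      rw [norm_def, norm_def, l_smul, b_smul]
      have : c • x.b - (c * x.l) • (1 : B) = c • (x.b - x.l • (1 : B)) := by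
        rw [smul_sub, smul_smul]
      rw [this, norm_smul, norm_mul]
      apply le_of_eq
      ring }

instance instOne [NormOneClass B] (n : ℕ) : NormOneClass (An B n) where
  norm_one := by
    rw [norm_def]
    simp

variable (B) in
/-- the uniform equivalence given by `fm` -/
def ue (n : ℕ) : An B n ≃ᵤ WithLp 1 (ℂ × B) :=
  { (fm B n) with
    uniformContinuous_invFun := uniformContinuous_comap' (by
      have h : (fm B n) ∘ (fm B n).invFun = id := funext (fm B n).right_inv
      rw [h]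
      exact uniformContinuous_id)
    uniformContinuous_toFun := uniformContinuous_iff_le_comap.mpr le_rfl }

instance instCS [CompleteSpace B] (n : ℕ) : CompleteSpace (An B n) :=
  completeSpace_congr (ue B n).isUniformEmbedding |>.mpr inferInstance

/-- no `An B n` has dense invertible group -/
lemma far [NormOneClass B] (f : B) (hf : ∀ g : B, IsUnit g → 1 ≤ ‖f - g‖) (n : ℕ) (g : An B n)
    (hg : IsUnit g) : 1 ≤ ‖mkA n 0 f - g‖ := by
  have h1 : IsUnit g.b := by
    obtain ⟨u, rfl⟩ := hg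
    refine ⟨⟨(u : An B n).b, ((u⁻¹ : (An B n)ˣ) : An B n).b, ?_, ?_⟩, rfl⟩
    · rw [← b_mul, Units.mul_inv, b_one]
    · rw [← b_mul, Units.inv_mul, b_one]
  have h2 := hf g.b h1
  rw [norm_def, l_sub, b_sub, l_mkA, b_mkA]
  have h3 : ‖f - g.b‖ ≤ ‖f - g.b - (0 - g.l) • (1 : B)‖ + ‖g.l‖ := by
    have : f - g.b = (f - g.b - (0 - g.l) • (1 : B)) + (0 - g.l) • (1 : B) := by abel
    calc ‖f - g.b‖ = ‖(f - g.b - (0 - g.l) • (1 : B)) + (0 - g.l) • (1 : B)‖ := by rw [← this]
      _ ≤ _ := norm_add_le _ _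
      _ = _ := by rw [norm_smul, zero_sub, norm_neg, norm_one, mul_one]
  have hn1 : (0 : ℝ) ≤ (n : ℝ) := Nat.cast_nonneg n
  have h4 : ‖(0 : ℂ) - g.l‖ = ‖g.l‖ := by rw [zero_sub, norm_neg]
  rw [h4]
  have h5 := norm_nonneg (f - g.b - (0 - g.l) • (1 : B))
  nlinarith

variable (B) in
/-- the identity map between different renormings, as an algebra isomorphism -/
def idE (m n : ℕ) : An B m ≃ₐ[ℂ] An B n := (AlgEquiv.refl : (ℂ × B) ≃ₐ[ℂ] (ℂ × B))

lemma idE_cont (m n : ℕ) : Continuous (idE B m n) := by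
  have h : ∀ x : An B m, ‖idE B m n x‖ ≤ ((n : ℝ) + 1) * ‖x‖ := by
    intro x
    rw [norm_def, norm_def]
    show ‖x.l‖ + ((n : ℝ) + 1) * ‖x.b - x.l • (1 : B)‖ ≤ _
    have h0 : (0 : ℝ) ≤ (n : ℝ) := Nat.cast_nonneg n
    have h1 : (0 : ℝ) ≤ (m : ℝ) := Nat.cast_nonneg m
    have h2 := norm_nonneg (x.b - x.l • (1 : B))
    have h3 := norm_nonneg x.l
    have h4 : 0 ≤ (n : ℝ) * ‖x.l‖ := mul_nonneg h0 h3
    have h5 : 0 ≤ ((n : ℝ) + 1) * ((m : ℝ) * ‖x.b - x.l • (1 : B)‖) := by positivity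
    nlinarith
  exact ((idE B m n).toLinearMap.mkContinuous _ h).continuous

end

end Pool.Agent.X189.SR
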